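import Mathlib

/-! A solution of the weighted pendulum equation that leaves the range `[0, π/2]` on `x > 0`. -/

namespace Pool.Agent.Results.MP_4601b9_an.Counter
open Set Filter Topology Real MeasureTheory

/-- glue two functions at `c`. -/
noncomputable def G (c : ℝ) (f g : ℝ → ℝ) : ℝ → ℝ := fun t => if t ≤ c then f t else g t

theorem glue {f g f' g' : ℝ → ℝ} {c : ℝ} (hf : ∀ x, HasDerivAt f (f' x) x)
    (hg : ∀ x, HasDerivAt g (g' x) x) (h0 : f c = g c) (h1 : f' c = g' c) (x : ℝ) :
    HasDerivAt (G c f g) (G c f' g' x) x := by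
  rcases lt_trichotomy x c with h | h | h
  · have e : G c f' g' x = f' x := if_pos h.le
    rw [e]
    refine (hf x).congr_of_eventuallyEq ?_
    filter_upwards [Iio_mem_nhds h] with t ht using if_pos (le_of_lt ht)
  · subst h
    have e : G x f' g' x = f' x := if_pos le_rfl
    rw [e]
    have a : HasDerivWithinAt (G x f g) (f' x) (Iic x) x :=
      (hf x).hasDerivWithinAt.congr (fun t ht => if_pos ht) (if_pos le_rfl)
    have b : HasDerivWithinAt (G x f g) (f' x) (Ici x) x := by
      rw [h1]
      refine (hg x).hasDerivWithinAt.congr (fun t ht => ?_) ((if_pos le_rfl).trans h0)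
      rcases eq_or_lt_of_le (show x ≤ t from ht) with h | h
      · subst h; exact (if_pos le_rfl).trans h0
      · exact if_neg (not_le.2 h)
    have := a.union b
    rwa [Iic_union_Ici, hasDerivWithinAt_univ] at this
  · have e : G c f' g' x = g' x := if_neg (not_le.2 h)
    rw [e]
    refine (hg x).congr_of_eventuallyEq ?_
    filter_upwards [Ioi_mem_nhds h] with t ht using if_neg (not_le.2 ht)

theorem sc (y : ℝ) : sin (arctan y) * cos (arctan y) = y / (1 + y ^ 2) := by
  rw [sin_arctan, cos_arctan]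
  have h : 0 < 1 + y ^ 2 := by positivity
  have := Real.mul_self_sqrt h.le
  have h2 : 0 < √(1 + y ^ 2) := Real.sqrt_pos.2 h
  field_simp
  rw [Real.sq_sqrt h.le]

theorem dS (c x : ℝ) : HasDerivAt (fun t => sinh (t + c)) (cosh (x + c)) x := by
  simpa using ((hasDerivAt_id' x).add_const c).sinh

theorem dC (c x : ℝ) : HasDerivAt (fun t => cosh (t + c)) (sinh (x + c)) x := by
  simpa using ((hasDerivAt_id' x).add_const c).cosh

theorem dE (c x : ℝ) : HasDerivAt (fun t => arctan (sinh (t + c))) (cosh (x + c))⁻¹ x := by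
  refine (dS c x).arctan.congr_deriv ?_
  have := (cosh_pos (x + c)).ne'
  rw [add_comm, ← cosh_sq]; field_simp

theorem dP (c x : ℝ) : HasDerivAt (fun t => (cosh (t + c))⁻¹)
    (-(sinh (x + c) / (1 + sinh (x + c) ^ 2))) x := by
  refine ((dC c x).fun_inv (cosh_pos _).ne').congr_deriv ?_
  rw [add_comm 1, ← cosh_sq]; ring

theorem dM (x : ℝ) : HasDerivAt (fun t => arctan (-sin t)) (-cos x / (1 + sin x ^ 2)) x := by
  refine (hasDerivAt_sin x).fun_neg.arctan.congr_deriv ?_
  have : 0 < 1 + sin x ^ 2 := by positivity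
  rw [neg_sq]; field_simp

theorem dN (x : ℝ) : HasDerivAt (fun t => -cos t) (sin x) x :=
  (hasDerivAt_cos x).fun_neg.congr_deriv (by ring)

theorem dA (x : ℝ) : HasDerivAt (fun t => 1 + sin t ^ 2) (2 * sin x * cos x) x :=
  (((hasDerivAt_sin x).fun_pow 2).const_add 1).congr_deriv (by norm_num)

theorem bd (c x : ℝ) (hc : c ^ 2 ≤ 16) : ((cosh (x + c))⁻¹) ^ 2 ≤ 33 * (1 + x ^ 2)⁻¹ := by
  have h1 : (x + c) ^ 2 ≤ sinh (x + c) ^ 2 := by
    rw [sq_le_sq, abs_sinh]; exact self_le_sinh_iff.2 (abs_nonneg _)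
  have h2 := cosh_sq (x + c)
  have h3 : 0 < cosh (x + c) ^ 2 := pow_pos (cosh_pos _) 2
  rw [inv_pow, ← div_eq_mul_inv, inv_eq_one_div, div_le_div_iff₀ h3 (by positivity)]
  nlinarith [sq_nonneg (x + 2 * c), sq_nonneg (x + c)]

theorem result : ∃ a φ φ' : ℝ → ℝ, Continuous a ∧ (∀ x, 1 ≤ a x ∧ a x ≤ 2) ∧
    (∀ x, HasDerivAt φ (φ' x) x) ∧ Continuous φ' ∧ MemLp φ' 2 volume ∧
    (∀ x, HasDerivAt (fun t => a t * φ' t) (-(a x * (sin (φ x) * cos (φ x)))) x) ∧
    φ 0 = 0 ∧ Tendsto φ atTop (𝓝 (π / 2)) ∧ Tendsto φ atBot (𝓝 (-(π / 2))) ∧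
    ∃ x, 0 < x ∧ φ x < 0 := by
  have hπ := pi_pos
  have hle : -π ≤ π := by linarith
  have h4 := pi_lt_four
  set a : ℝ → ℝ := G (-π) (fun _ => 1) (G π (fun t => 1 + sin t ^ 2) fun _ => 1) with ha
  set φ : ℝ → ℝ := G (-π) (fun t => arctan (sinh (t + π)))
    (G π (fun t => arctan (-sin t)) fun t => arctan (sinh (t + -π))) with hφ
  set φ' : ℝ → ℝ := G (-π) (fun t => (cosh (t + π))⁻¹)
    (G π (fun t => -cos t / (1 + sin t ^ 2)) fun t => (cosh (t + -π))⁻¹) with hφ'
  set p : ℝ → ℝ := G (-π) (fun t => (cosh (t + π))⁻¹)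
    (G π (fun t => -cos t) fun t => (cosh (t + -π))⁻¹) with hp
  have da := glue (c := -π) (f := fun _ => (1:ℝ)) (f' := fun _ => 0)
    (fun x => hasDerivAt_const x 1)
    (glue (c := π) (g := fun _ => (1:ℝ)) (g' := fun _ => 0) dA (fun x => hasDerivAt_const x 1)
      (by simp) (by simp)) (by simp [G, hle]) (by simp [G, hle])
  have ca : Continuous a := continuous_iff_continuousAt.2 fun x => (da x).continuousAt
  have hab : ∀ x, 1 ≤ a x ∧ a x ≤ 2 := fun x => by
    have := sin_sq_le_one x
    have := sq_nonneg (sin x)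
    simp only [ha, G]; split_ifs <;> constructor <;> linarith
  have dφ : ∀ x, HasDerivAt φ (φ' x) x := glue (dE π)
    (glue dM (dE (-π)) (by simp) (by simp)) (by simp [G, hle]) (by simp [G, hle])
  have dp := glue (c := -π) (dP π)
    (glue (c := π) dN (dP (-π)) (by simp) (by simp)) (by simp [G, hle]) (by simp [G, hle])
  have e : (fun t => a t * φ' t) = p := by
    funext t
    have : 0 < 1 + sin t ^ 2 := by positivity
    simp only [ha, hφ', hp, G]; split_ifs
    · ring
    · field_simp
    · ring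
  have cp : Continuous p := continuous_iff_continuousAt.2 fun x => (dp x).continuousAt
  have cφ' : Continuous φ' := by
    have : φ' = fun t => p t / a t := by
      funext t
      have := (hab t).1
      rw [← e]; beta_reduce; field_simp
    rw [this]
    exact cp.div ca fun t => by linarith [(hab t).1]
  refine ⟨a, φ, φ', ca, hab, dφ, cφ', ?_, fun x => ?_, ?_, ?_, ?_, π / 2, by positivity, ?_⟩
  · rw [memLp_two_iff_integrable_sq cφ'.aestronglyMeasurable]
    refine (integrable_inv_one_add_sq.const_mul 33).mono' (cφ'.pow 2).aestronglyMeasurable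
      (Eventually.of_forall fun x => ?_)
    rw [Real.norm_of_nonneg (sq_nonneg _)]
    simp only [hφ', G]; split_ifs with h1 h2
    · exact bd π x (by nlinarith)
    · push Not at h1
      have hx : x ^ 2 ≤ 16 := by nlinarith
      have s1 := cos_sq_le_one x
      have s2 := sq_nonneg (sin x)
      have : (-cos x / (1 + sin x ^ 2)) ^ 2 ≤ 1 := by
        rw [div_pow, div_le_one (by positivity)]; nlinarith
      refine this.trans ?_
      rw [← div_eq_mul_inv, le_div_iff₀ (by positivity)]; linarith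
    · exact bd (-π) x (by nlinarith)
  · rw [e]
    refine (dp x).congr_deriv ?_
    have : 0 < 1 + sin x ^ 2 := by positivity
    simp only [ha, hφ, G]; split_ifs
    · rw [sc]; ring
    · rw [sc, neg_sq]; field_simp
    · rw [sc]; ring
  · have h1 : ¬ (0:ℝ) ≤ -π := by linarith
    simp [hφ, G, h1, hπ.le]
  · have t1 : Tendsto (fun t => sinh (t + -π)) atTop atTop := by
      refine tendsto_atTop_mono' _ ?_ (tendsto_atTop_add_const_right _ (-π) tendsto_id)
      filter_upwards [eventually_ge_atTop π] with t ht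
      exact self_le_sinh_iff.2 (by simpa using ht)
    refine ((tendsto_arctan_atTop.mono_right nhdsWithin_le_nhds).comp t1).congr' ?_
    filter_upwards [eventually_gt_atTop π] with t ht
    have h1 : ¬ t ≤ -π := by linarith
    have h2 : ¬ t ≤ π := by linarith
    simp only [hφ, G, if_neg h1, if_neg h2, Function.comp]
  · have t1 : Tendsto (fun t => sinh (t + π)) atBot atBot := by
      refine tendsto_atBot_mono' _ ?_ (tendsto_atBot_add_const_right _ π tendsto_id)
      filter_upwards [eventually_le_atBot (-π)] with t ht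
      exact sinh_le_self_iff.2 (by linarith)
    refine ((tendsto_arctan_atBot.mono_right nhdsWithin_le_nhds).comp t1).congr' ?_
    filter_upwards [eventually_le_atBot (-π)] with t ht
    simp only [hφ, G, if_pos ht, Function.comp]
  · have h1 : ¬ π / 2 ≤ -π := by linarith
    have h2 : π / 2 ≤ π := by linarith
    simp only [hφ, G, if_neg h1, if_pos h2, sin_pi_div_two, arctan_neg, arctan_one]
    linarith

end Pool.Agent.Results.MP_4601b9_an.Counter
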